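import Pool.Agent.H94.LP7.GD.VT.Exf
import Pool.Agent.H94.LP7.M63

/-!
# General d, VT: the leading term of the virtual dimension

PROOF of `vt`: by `fac`, `hs_fac` the summand of `vd` is a product over objects `x` with supports `sp x ⊆
range j` of factors `1 + g x` which are present iff `sp x` is disjoint from `I'`: the supports `K` (with
`1 + g = ∏ (1 - t^x)^N`), the blocks `i` (support `{i}`, `1 + g = hr (c i)`), for every cluster kind two
objects: support `us`, `1 + g = (1 - t^tx)^count`, and support `insert cb us`, `1 + g` = its inverse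
(`inv_pts`); and the common factor `hr (n - ∑ c)`.  `inc_exc` gives the sum over the sets `Y` of objects with
`I ⊆ ⋃ sp`.  Types (`Ty`): support `K`: `|K|` (`ty_kind`), block: `1`, clusters: `tx - w ≥ |us| + 2`.  The type of
the product of `Y` is `≥ |I| + 1` unless all objects of `Y` with nonempty support are supports `K ⊆ I` and
blocks `i ∈ I`, pairwise disjoint, with union `I`, and no cluster object; in this case `Ty.prod` replaces
the factors by `- ∑_x N_x t^x`, `c i t`, and the factors of the empty support by `ex n 1`, `ex (-N) x`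
modulo the type `|I| + 1`.  The sum of these main terms is `t^|I| * Mser` (the blocks `i` are those outside
`P.biUnion id`).
-/

set_option autoImplicit false

namespace Pool.Agent.GD.VT

open Finset PowerSeries

variable (P : Par)

/-- The numbers of the points of the support `K` and the exponent `|K| + b`. -/
noncomputable def NN (j : ℕ) (ms : Multiset Kd) (K : Finset ℕ) (b : ℕ) : ℝ :=
  npt ms (K.card + b) (range j \ K)

section aux

private theorem unif {X : Type} (s : Finset X) (Q : X → ℝ → Prop)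
    (hm : ∀ x C C', 1 ≤ C → C ≤ C' → Q x C → Q x C') (h : ∀ x ∈ s, ∃ C, 1 ≤ C ∧ Q x C) :
    ∃ C, 1 ≤ C ∧ ∀ x ∈ s, Q x C := by
  classical
  induction s using Finset.induction_on with
  | empty => exact ⟨1, le_rfl, fun x hx => absurd hx (Finset.notMem_empty x)⟩
  | insert a s ha ih =>
    obtain ⟨C, hC, h1⟩ := ih fun x hx => h x (mem_insert_of_mem hx)
    obtain ⟨C', hC', h2⟩ := h a (mem_insert_self a s)
    refine ⟨max C C', le_max_of_le_left hC, fun x hx => ?_⟩
    rcases mem_insert.1 hx with rfl | hx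
    · exact hm _ _ _ hC' (le_max_right _ _) h2
    · exact hm _ _ _ hC (le_max_left _ _) (h1 x hx)

private theorem ty_sum {Z : Type} {d n : ℕ} {s : ℤ} {C : ℝ} (S : Finset Z)
    (f : Z → PowerSeries ℝ) (h : ∀ y ∈ S, Ty d n s C (f y)) :
    Ty d n s (S.card * C) (∑ y ∈ S, f y) := by
  intro D hD
  rw [map_sum]
  refine (Finset.abs_sum_le_sum_abs _ _).trans ?_
  refine (Finset.sum_le_sum fun y hy => h y hy D hD).trans ?_
  rw [Finset.sum_const, nsmul_eq_mul, mul_assoc]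

/-- The objects: the nonempty supports, the blocks, two for every cluster kind. -/
private abbrev Ob : Type := Finset ℕ ⊕ (ℕ ⊕ (Kd ⊕ Kd))

private noncomputable def obj (j : ℕ) : Finset Ob :=
  ((range j).powerset.erase ∅).disjSum ((range j).disjSum ((clK P j).disjSum (clK P j)))

private def spo (j : ℕ) : Ob → Finset ℕ
  | .inl K => K
  | .inr (.inl i) => {i}
  | .inr (.inr (.inl k)) => us j k
  | .inr (.inr (.inr k)) => insert (cb k) (us j k)

private noncomputable def gO (j : ℕ) (ms : Multiset Kd) : Ob → PowerSeries ℝ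
  | .inl K => ∏ x ∈ Icc 1 P.d, (1 - X ^ x) ^ npt ms x (range j \ K) - 1
  | .inr (.inl i) => hr (P.c i) - 1
  | .inr (.inr (.inl k)) => (1 - X ^ tx k) ^ ms.count k - 1
  | .inr (.inr (.inr k)) =>
    (PowerSeries.mk fun D => if tx k ∣ D then (Nat.multichoose (ms.count k) (D / tx k) : ℝ) else 0) - 1

private noncomputable def bO (j : ℕ) (ms : Multiset Kd) : Ob → PowerSeries ℝ
  | .inl K => -∑ x ∈ Icc 1 P.d, PowerSeries.C (npt ms x (range j \ K) : ℝ) * X ^ x
  | .inr (.inl i) => PowerSeries.C (P.c i : ℝ) * X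
  | .inr (.inr _) => 0

/-- The common factor. -/
private noncomputable def FO (j n : ℕ) (ms : Multiset Kd) : PowerSeries ℝ :=
  hr (n - ∑ i ∈ range j, P.c i) * ∏ x ∈ Icc 1 P.d, (1 - X ^ x) ^ npt ms x (range j \ ∅)

private noncomputable def FB (j n : ℕ) (ms : Multiset Kd) : PowerSeries ℝ :=
  ex n 1 * ∏ b ∈ Icc 1 P.d, ex (-NN j ms ∅ b) b

private structure Gd (j : ℕ) (C₁ : ℝ) (n : ℕ) (ms : Multiset Kd) : Prop where
  one : 1 ≤ n
  sum : ∑ i ∈ range j, P.c i ≤ n
  cls : Cls P j n ms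
  bd : (npt ms P.e (range j) : ℝ) ≤ C₁ * (n : ℝ) ^ P.e

private theorem obj_ty (he : 2 ≤ P.e) (hed : P.e < P.d) {j : ℕ} (hj : j ≤ P.J) (C₁ : ℝ) :
    ∃ C : ℝ, 1 ≤ C ∧ ∀ x ∈ obj P j, ∀ n ms, Gd P j C₁ n ms →
      Ty P.d n ((spo j x).card : ℤ) C (gO P j ms x) ∧
        Ty P.d n ((spo j x).card + 1 : ℤ) C (gO P j ms x - bO P j ms x) := by
  refine unif (obj P j) (fun x C => ∀ n ms, Gd P j C₁ n ms →
      Ty P.d n ((spo j x).card : ℤ) C (gO P j ms x) ∧
        Ty P.d n ((spo j x).card + 1 : ℤ) C (gO P j ms x - bO P j ms x)) ?_ ?_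
  · intro x C C' hC hCC' h n ms hG
    obtain ⟨h1, h2⟩ := h n ms hG
    exact ⟨h1.mono hG.one le_rfl hCC' (by linarith only [hC]), h2.mono hG.one le_rfl hCC' (by linarith only [hC])⟩
  · intro x hx
    unfold obj at hx
    rcases x with K | i | k | k
    · rw [inl_mem_disjSum, mem_erase, mem_powerset] at hx
      obtain ⟨hK0, hK⟩ := hx
      have hk : 1 ≤ K.card := card_pos.2 (nonempty_iff_ne_empty.2 hK0)
      obtain ⟨C₀, hC₀, hN⟩ := npt_bd P he hed hj C₁
      obtain ⟨C, hC, h⟩ := ty_kind P.d K.card hk C₀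
      refine ⟨C, hC, fun n ms hG => ?_⟩
      have h1 := hN n hG.one ms hG.cls hG.bd K hK
      obtain ⟨h2, h3⟩ := h n (fun x => npt ms x (range j \ K)) hG.one (fun x hx => (h1 x).1 (Or.inl hx))
        (fun x hx _ => (h1 x).2 hx)
      refine ⟨h2, ?_⟩
      change Ty P.d n ((K.card : ℤ) + 1) C (∏ x ∈ Icc 1 P.d, (1 - X ^ x) ^ npt ms x (range j \ K) - 1 -
        -∑ x ∈ Icc 1 P.d, PowerSeries.C (npt ms x (range j \ K) : ℝ) * X ^ x)
      rw [sub_neg_eq_add]
      exact h3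
    · obtain ⟨C, hC, h⟩ := ty_blk P.d (P.c i)
      refine ⟨C, hC, fun n ms hG => ?_⟩
      obtain ⟨h1, h2⟩ := h n hG.one
      have h3 : ((spo j (.inr (.inl i) : Ob)).card : ℤ) = 1 := by
        change ((({i} : Finset ℕ).card : ℕ) : ℤ) = 1
        rw [card_singleton]
        rfl
      rw [h3]
      exact ⟨h1, h2⟩
    · rw [inr_mem_disjSum, inr_mem_disjSum, inl_mem_disjSum] at hx
      obtain ⟨w, C₀, hC₀, h1, h2, h3, h4, h5, h6⟩ := cl_bd P he hed hj hx
      obtain ⟨C, hC, h⟩ := ty_cl P.d (tx k) w (by omega) C₀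
      refine ⟨C, hC, fun n ms hG => ?_⟩
      obtain ⟨h7, h8⟩ := h n (ms.count k) hG.one (h6 n ms hG.cls)
      have h9 : ((us j k).card : ℤ) + 2 ≤ (tx k : ℤ) - w := by omega
      constructor
      · exact h7.mono hG.one (by change ((us j k).card : ℤ) ≤ _; omega) le_rfl (by linarith only [hC])
      · change Ty P.d n (((us j k).card : ℤ) + 1) C ((1 - X ^ tx k) ^ ms.count k - 1 - 0)
        rw [sub_zero]
        exact h7.mono hG.one (by omega) le_rfl (by linarith only [hC])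
    · rw [inr_mem_disjSum, inr_mem_disjSum, inr_mem_disjSum] at hx
      obtain ⟨w, C₀, hC₀, h1, h2, h3, h4, h5, h6⟩ := cl_bd P he hed hj hx
      obtain ⟨C, hC, h⟩ := ty_cl P.d (tx k) w (by omega) C₀
      refine ⟨C, hC, fun n ms hG => ?_⟩
      obtain ⟨h7, h8⟩ := h n (ms.count k) hG.one (h6 n ms hG.cls)
      have h9 : ((us j k).card : ℤ) + 2 ≤ (tx k : ℤ) - w := by omega
      have h10 : ((spo j (.inr (.inr (.inr k)) : Ob)).card : ℤ) = (us j k).card + 1 := by
        change (((insert (cb k) (us j k)).card : ℕ) : ℤ) = _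
        rw [card_insert_of_notMem h1]
        push_cast
        rfl
      rw [h10]
      constructor
      · exact h8.mono hG.one (by omega) le_rfl (by linarith only [hC])
      · change Ty P.d n (((us j k).card : ℤ) + 1 + 1) C ((PowerSeries.mk fun D => if tx k ∣ D then (Nat.multichoose (ms.count k) (D / tx k) : ℝ) else 0) - 1 - 0)
        rw [sub_zero]
        exact h8.mono hG.one (by omega) le_rfl (by linarith only [hC])

private theorem prodY (he : 2 ≤ P.e) (hed : P.e < P.d) {j : ℕ} (hj : j ≤ P.J) (C₁ : ℝ) :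
    ∃ C : ℝ, 1 ≤ C ∧ ∀ Y ∈ (obj P j).powerset, ∀ n ms, Gd P j C₁ n ms →
      Ty P.d n (∑ x ∈ Y, ((spo j x).card : ℤ)) C (∏ x ∈ Y, gO P j ms x) ∧
        Ty P.d n (∑ x ∈ Y, ((spo j x).card : ℤ) + 1) C (∏ x ∈ Y, gO P j ms x - ∏ x ∈ Y, bO P j ms x) := by
  obtain ⟨C₀, hC₀, h0⟩ := obj_ty P he hed hj C₁
  refine unif (obj P j).powerset (fun Y C => ∀ n ms, Gd P j C₁ n ms →
      Ty P.d n (∑ x ∈ Y, ((spo j x).card : ℤ)) C (∏ x ∈ Y, gO P j ms x) ∧
        Ty P.d n (∑ x ∈ Y, ((spo j x).card : ℤ) + 1) C (∏ x ∈ Y, gO P j ms x - ∏ x ∈ Y, bO P j ms x)) ?_ ?_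
  · intro Y C C' hC hCC' h n ms hG
    obtain ⟨h1, h2⟩ := h n ms hG
    exact ⟨h1.mono hG.one le_rfl hCC' (by linarith only [hC]), h2.mono hG.one le_rfl hCC' (by linarith)⟩
  · intro Y hY
    rw [mem_powerset] at hY
    obtain ⟨C', hC', h⟩ := Ty.prod (d := P.d) Y (fun x => ((spo j x).card : ℤ)) C₀ hC₀
    refine ⟨C', hC', fun n ms hG => ?_⟩
    exact h n hG.one (gO P j ms) (bO P j ms) (fun x hx => (h0 x (hY hx) n ms hG).1)
      fun x hx => (h0 x (hY hx) n ms hG).2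

private theorem prodF (he : 2 ≤ P.e) (hed : P.e < P.d) {j : ℕ} (hj : j ≤ P.J) (C₁ : ℝ) :
    ∃ C : ℝ, 1 ≤ C ∧ ∀ n ms, Gd P j C₁ n ms →
      Ty P.d n 0 C (FO P j n ms) ∧ Ty P.d n 1 C (FO P j n ms - FB P j n ms) := by
  classical
  obtain ⟨C₀, hC₀, hN⟩ := npt_bd P he hed hj C₁
  obtain ⟨C₂, hC₂, h0⟩ := unif (insert 0 (Icc 1 P.d)) (fun x C => ∀ n ms, Gd P j C₁ n ms →
      Ty P.d n 0 C (if x = 0 then hr (n - ∑ i ∈ range j, P.c i) else (1 - X ^ x) ^ npt ms x (range j \ ∅)) ∧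
        Ty P.d n (0 + 1) C ((if x = 0 then hr (n - ∑ i ∈ range j, P.c i) else (1 - X ^ x) ^ npt ms x (range j \ ∅)) -
          if x = 0 then ex n 1 else ex (-NN j ms ∅ x) x)) (by
    intro x C C' hC hCC' h n ms hG
    obtain ⟨h1, h2⟩ := h n ms hG
    exact ⟨h1.mono hG.one le_rfl hCC' (by linarith only [hC]), h2.mono hG.one le_rfl hCC' (by linarith only [hC])⟩) (by
    intro x hx
    rcases mem_insert.1 hx with rfl | hx
    · obtain ⟨C, hC, h⟩ := ty_hr P.d (∑ i ∈ range j, P.c i)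
      refine ⟨C, hC, fun n ms hG => ?_⟩
      obtain ⟨h1, h2⟩ := h n hG.one hG.sum
      rw [if_pos rfl, if_pos rfl, zero_add]
      exact ⟨h1, h2⟩
    · have hx1 := (mem_Icc.1 hx).1
      obtain ⟨C, hC, h⟩ := ty_pts P.d x hx1 C₀
      refine ⟨C, hC, fun n ms hG => ?_⟩
      have h3 := (hN n hG.one ms hG.cls hG.bd ∅ (empty_subset _) x).2 (by rw [card_empty]; exact Nat.zero_le _)
      rw [card_empty, Nat.sub_zero] at h3
      obtain ⟨h1, h2⟩ := h n (npt ms x (range j \ ∅)) hG.one h3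
      rw [if_neg (by omega), if_neg (by omega), zero_add]
      have h4 : NN j ms ∅ x = (npt ms x (range j \ ∅) : ℝ) := by
        unfold NN
        rw [card_empty, zero_add]
      rw [h4]
      exact ⟨h1, h2⟩)
  obtain ⟨C', hC', h⟩ := Ty.prod (d := P.d) (insert 0 (Icc 1 P.d)) (fun _ => (0 : ℤ)) C₂ hC₂
  refine ⟨C', hC', fun n ms hG => ?_⟩
  have h1 := h n hG.one _ _ (fun x hx => (h0 x hx n ms hG).1) fun x hx => (h0 x hx n ms hG).2
  have h2 : (0 : ℕ) ∉ Icc 1 P.d := by simp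
  rw [prod_insert h2, prod_insert h2, if_pos rfl, if_pos rfl, sum_const_zero, zero_add] at h1
  have h3 : ∏ x ∈ Icc 1 P.d, (if x = 0 then hr (n - ∑ i ∈ range j, P.c i) else (1 - X ^ x) ^ npt ms x (range j \ ∅)) =
      ∏ x ∈ Icc 1 P.d, (1 - X ^ x : PowerSeries ℝ) ^ npt ms x (range j \ ∅) :=
    prod_congr rfl fun x hx => if_neg (by have := (mem_Icc.1 hx).1; omega)
  have h4 : ∏ x ∈ Icc 1 P.d, (if x = 0 then ex n 1 else ex (-NN j ms ∅ x) x) = ∏ b ∈ Icc 1 P.d, ex (-NN j ms ∅ b) b :=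
    prod_congr rfl fun x hx => if_neg (by have := (mem_Icc.1 hx).1; omega)
  rw [h3, h4] at h1
  exact h1

/-! ### The identity -/

private theorem cl_eq {R : Type} [CommRing R] (c : ℕ) (u I' : Finset ℕ) (h : c ∉ u) (a b : R) (hab : a * b = 1) :
    (if c ∈ I' ∧ Disjoint u (I'.erase c) then a else 1) =
      (if Disjoint u I' then 1 + (a - 1) else 1) * if Disjoint (insert c u) I' then 1 + (b - 1) else 1 := by
  rw [add_sub_cancel, add_sub_cancel]
  have h1 : Disjoint u (I'.erase c) ↔ Disjoint u I' := by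
    rw [Finset.disjoint_left, Finset.disjoint_left]
    refine forall_congr' fun x => ?_
    constructor
    · intro h1 hx hx'
      exact h1 hx (mem_erase.2 ⟨fun h2 => h (h2 ▸ hx), hx'⟩)
    · intro h1 hx hx'
      exact h1 hx (mem_of_mem_erase hx')
  have h2 : Disjoint (insert c u) I' ↔ c ∉ I' ∧ Disjoint u I' := disjoint_insert_left
  by_cases h3 : Disjoint u I'
  · by_cases h4 : c ∈ I'
    · rw [if_pos (⟨h4, h1.2 h3⟩ : c ∈ I' ∧ Disjoint u (I'.erase c)), if_pos h3, if_neg (fun h => (h2.1 h).1 h4), mul_one]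
    · rw [if_neg (fun h => h4 h.1), if_pos h3, if_pos (h2.2 ⟨h4, h3⟩), hab]
  · rw [if_neg (fun h => h3 (h1.1 h.2)), if_neg h3, if_neg (fun h => h3 (h2.1 h).2), mul_one]

private theorem sum_id (he : 2 ≤ P.e) (hed : P.e < P.d) {j : ℕ} (hj : j ≤ P.J) {n : ℕ} {ms : Multiset Kd}
    (h : Cls P j n ms) (hn : ∑ i ∈ range j, P.c i ≤ n) {I' : Finset ℕ} (hI' : I' ⊆ range j) :
    PowerSeries.map (Int.castRingHom ℝ) ((ms.map (Kd.P I')).prod * hs (n - ∑ i ∈ I', P.c i)) =
      FO P j n ms * ∏ x ∈ obj P j, if Disjoint (spo j x) I' then 1 + gO P j ms x else 1 := by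
  classical
  rw [map_mul, fac P he hed hj h hI', hs_fac P.c hn hI']
  unfold FO obj
  rw [prod_disjSum, prod_disjSum, prod_disjSum]
  have h1 : ∏ K ∈ (range j).powerset, (if Disjoint K I' then
      ∏ x ∈ Icc 1 P.d, (1 - X ^ x) ^ npt ms x (range j \ K) else 1) =
      (∏ x ∈ Icc 1 P.d, (1 - X ^ x) ^ npt ms x (range j \ ∅)) * ∏ x ∈ (range j).powerset.erase ∅,
        (if Disjoint (spo j (.inl x)) I' then 1 + gO P j ms (.inl x) else 1 : PowerSeries ℝ) := by
    rw [← mul_prod_erase _ _ (empty_mem_powerset (range j)), if_pos (disjoint_empty_left I')]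
    congr 1
    refine prod_congr rfl fun K _ => ?_
    change _ = if Disjoint K I' then 1 + (∏ x ∈ Icc 1 P.d, (1 - X ^ x) ^ npt ms x (range j \ K) - 1) else 1
    rw [add_sub_cancel]
  have h2 : ∏ i ∈ range j, (if Disjoint {i} I' then hr (P.c i) else 1) =
      ∏ x ∈ range j, (if Disjoint (spo j (.inr (.inl x))) I' then 1 + gO P j ms (.inr (.inl x)) else 1 : PowerSeries ℝ) := by
    refine prod_congr rfl fun i _ => ?_
    change _ = if Disjoint {i} I' then 1 + (hr (P.c i) - 1) else 1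
    rw [add_sub_cancel]
  have h3 : ∏ k ∈ clK P j, (if cb k ∈ I' ∧ Disjoint (us j k) (I'.erase (cb k)) then
      (1 - X ^ tx k : PowerSeries ℝ) ^ ms.count k else 1) =
      (∏ x ∈ clK P j, (if Disjoint (spo j (.inr (.inr (.inl x)))) I' then 1 + gO P j ms (.inr (.inr (.inl x))) else 1 : PowerSeries ℝ)) *
        ∏ x ∈ clK P j, (if Disjoint (spo j (.inr (.inr (.inr x)))) I' then 1 + gO P j ms (.inr (.inr (.inr x))) else 1 : PowerSeries ℝ) := by
    rw [← prod_mul_distrib]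
    refine prod_congr rfl fun k hk => ?_
    obtain ⟨w, C₀, hC₀, h4, h5, h6, h7, h8, h9⟩ := cl_bd P he hed hj hk
    exact cl_eq _ _ I' h4 _ _ (inv_pts (tx k) (ms.count k) h7)
  rw [h1, h2, h3]
  ring

private theorem vd_id (he : 2 ≤ P.e) (hed : P.e < P.d) {j : ℕ} (hj : j ≤ P.J) {n : ℕ} {ms : Multiset Kd}
    (h : Cls P j n ms) (hn : ∑ i ∈ range j, P.c i ≤ n) {I : Finset ℕ} (hI : I ⊆ range j) (D : ℕ) :
    (vd D I P.c n ms : ℝ) = coeff D (FO P j n ms *
      ∑ Y ∈ (obj P j).powerset.filter (fun Y => I ⊆ Y.biUnion (spo j)), ∏ x ∈ Y, gO P j ms x) := by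
  rw [← inc_exc, mul_sum, map_sum]
  unfold vd
  rw [Int.cast_sum]
  refine sum_congr rfl fun I' hI' => ?_
  have h1 := sum_id P he hed hj h hn ((mem_powerset.1 hI').trans hI)
  have h2 : FO P j n ms * ((-1) ^ I'.card * ∏ x ∈ obj P j, if Disjoint (spo j x) I' then 1 + gO P j ms x else 1) =
      PowerSeries.C ((-1 : ℝ) ^ I'.card) * PowerSeries.map (Int.castRingHom ℝ) ((ms.map (Kd.P I')).prod * hs (n - ∑ i ∈ I', P.c i)) := by
    rw [h1, map_pow, map_neg, map_one]
    ring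
  rw [h2, PowerSeries.coeff_C_mul, PowerSeries.coeff_map]
  push_cast
  rfl

/-! ### The main terms -/

private theorem disj_of_card {X : Type} [DecidableEq X] {Y : Finset X} {sp : X → Finset ℕ}
    (h : ∑ x ∈ Y, (sp x).card ≤ (Y.biUnion sp).card) {x y : X} (hx : x ∈ Y) (hy : y ∈ Y) (hxy : x ≠ y) :
    Disjoint (sp x) (sp y) := by
  by_contra hd
  have h1 : Y.biUnion sp = (Y.erase x).biUnion sp ∪ sp x := by
    conv_lhs => rw [← insert_erase hx]
    rw [biUnion_insert, union_comm]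
  have h2 : ((Y.erase x).biUnion sp ∩ sp x).Nonempty := by
    rw [Finset.not_disjoint_iff] at hd
    obtain ⟨a, ha, ha'⟩ := hd
    exact ⟨a, mem_inter.2 ⟨mem_biUnion.2 ⟨y, mem_erase.2 ⟨hxy.symm, hy⟩, ha'⟩, ha⟩⟩
  have h3 := card_union_add_card_inter ((Y.erase x).biUnion sp) (sp x)
  have h4 : ((Y.erase x).biUnion sp).card ≤ ∑ z ∈ Y.erase x, (sp z).card := card_biUnion_le
  have h5 : ∑ z ∈ Y, (sp z).card = (sp x).card + ∑ z ∈ Y.erase x, (sp z).card := (add_sum_erase _ _ hx).symm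
  have h6 := card_pos.2 h2
  rw [h1] at h
  omega

private def phi (I : Finset ℕ) (F : Finset (Finset ℕ)) : Finset Ob := F.disjSum ((I \ F.biUnion id).disjSum ∅)

private theorem phi_inj (I : Finset ℕ) : Function.Injective (phi I) := by
  intro F F' h
  ext K
  have h1 : (Sum.inl K : Ob) ∈ phi I F ↔ (Sum.inl K : Ob) ∈ phi I F' := by rw [h]
  unfold phi at h1
  rwa [inl_mem_disjSum, inl_mem_disjSum] at h1

private theorem phi_sp {j : ℕ} {I : Finset ℕ} {F : Finset (Finset ℕ)} (hF : F ∈ Dj I) :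
    I ⊆ (phi I F).biUnion (spo j) ∧ ∑ x ∈ phi I F, (spo j x).card = I.card := by
  obtain ⟨h1, h2, h3⟩ := mem_Dj.1 hF
  constructor
  · intro i hi
    rw [mem_biUnion]
    by_cases h4 : i ∈ F.biUnion id
    · obtain ⟨K, hK, hiK⟩ := mem_biUnion.1 h4
      exact ⟨.inl K, inl_mem_disjSum.2 hK, hiK⟩
    · exact ⟨.inr (.inl i), inr_mem_disjSum.2 (inl_mem_disjSum.2 (mem_sdiff.2 ⟨hi, h4⟩)), mem_singleton_self i⟩
  · unfold phi
    rw [sum_disjSum, sum_disjSum, sum_empty, add_zero]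
    have h4 : ∑ x ∈ F, (spo j (.inl x)).card = (F.biUnion id).card := by
      rw [card_biUnion]
      · rfl
      · intro S hS T hT hST
        exact h3 S hS T hT hST
    have h5 : ∑ x ∈ I \ F.biUnion id, (spo j (.inr (.inl x))).card = (I \ F.biUnion id).card := by
      rw [card_eq_sum_ones]
      exact sum_congr rfl fun i _ => card_singleton i
    rw [h4, h5, add_comm]
    refine card_sdiff_add_card_eq_card ?_
    intro i hi
    obtain ⟨K, hK, hiK⟩ := mem_biUnion.1 hi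
    exact h1 K hK hiK

private theorem phi_mem {j : ℕ} {I : Finset ℕ} (hI : I ⊆ range j) {F : Finset (Finset ℕ)} (hF : F ∈ Dj I) :
    phi I F ⊆ obj P j := by
  obtain ⟨h1, h2, h3⟩ := mem_Dj.1 hF
  intro x hx
  unfold phi at hx
  unfold obj
  rcases x with K | i | k | k
  · rw [inl_mem_disjSum] at hx ⊢
    rw [mem_erase, mem_powerset]
    exact ⟨fun h => h2 (h ▸ hx), (h1 K hx).trans hI⟩
  · rw [inr_mem_disjSum, inl_mem_disjSum] at hx ⊢
    exact hI (mem_sdiff.1 hx).1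
  · rw [inr_mem_disjSum, inr_mem_disjSum] at hx
    exact absurd hx (notMem_empty _)
  · rw [inr_mem_disjSum, inr_mem_disjSum] at hx
    exact absurd hx (notMem_empty _)

private theorem exact_eq {j : ℕ} {I : Finset ℕ} {Y : Finset Ob} (hY : Y ⊆ obj P j) (hI : I ⊆ Y.biUnion (spo j))
    (hc : ∑ x ∈ Y, (spo j x).card = I.card) (hno : ∀ k, (.inr (.inr k) : Ob) ∉ Y) : ∃ F ∈ Dj I, phi I F = Y := by
  have h1 : (Y.biUnion (spo j)).card ≤ ∑ x ∈ Y, (spo j x).card := card_biUnion_le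
  have h2 : I = Y.biUnion (spo j) := eq_of_subset_of_card_le hI (by omega)
  have h3 : ∀ x ∈ Y, ∀ y ∈ Y, x ≠ y → Disjoint (spo j x) (spo j y) := fun x hx y hy hxy =>
    disj_of_card (by rw [← h2, hc]) hx hy hxy
  have h4 : ∀ x ∈ Y, spo j x ⊆ I := by
    intro x hx
    rw [h2]
    exact subset_biUnion_of_mem (spo j) hx
  refine ⟨Y.toLeft, ?_, ?_⟩
  · rw [mem_Dj]
    refine ⟨?_, ?_, ?_⟩
    · intro K hK
      exact h4 _ (mem_toLeft.1 hK)
    · intro h
      have h5 := hY (mem_toLeft.1 h)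
      unfold obj at h5
      rw [inl_mem_disjSum, mem_erase] at h5
      exact h5.1 rfl
    · intro S hS T hT hST
      exact h3 _ (mem_toLeft.1 hS) _ (mem_toLeft.1 hT) fun h => hST (Sum.inl_injective h)
  · ext x
    unfold phi
    rcases x with K | i | k
    · rw [inl_mem_disjSum, mem_toLeft]
    · rw [inr_mem_disjSum, inl_mem_disjSum, mem_sdiff]
      constructor
      · rintro ⟨hi, hi'⟩
        rw [h2, mem_biUnion] at hi
        obtain ⟨x, hx, hix⟩ := hi
        rcases x with K | i' | k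
        · exact absurd (mem_biUnion.2 ⟨K, mem_toLeft.2 hx, hix⟩) hi'
        · have h5 : i = i' := mem_singleton.1 hix
          rw [h5]
          exact hx
        · exact absurd hx (hno k)
      · intro hx
        have h5 : i ∈ spo j (.inr (.inl i) : Ob) := mem_singleton_self i
        refine ⟨h4 _ hx h5, fun h6 => ?_⟩
        obtain ⟨K, hK, hiK⟩ := mem_biUnion.1 h6
        have h7 := h3 _ (mem_toLeft.1 hK) _ hx (by simp)
        exact Finset.disjoint_left.1 h7 hiK h5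
    · rw [inr_mem_disjSum, inr_mem_disjSum]
      constructor
      · intro h
        exact absurd h (notMem_empty _)
      · intro h
        exact absurd h (hno k)

private theorem supp_eq {d : ℕ} {K : Finset ℕ} (hK : 1 ≤ K.card) (N : ℕ → ℕ) (h0 : ∀ x, x < K.card → N x = 0) (h1 : ∀ x, d ≤ x → N x = 0) :
    (-∑ x ∈ Icc 1 d, PowerSeries.C (N x : ℝ) * X ^ x : PowerSeries ℝ) =
      X ^ K.card * -∑ b ∈ range (d + 1), PowerSeries.C (N (K.card + b) : ℝ) * X ^ b := by
  rw [mul_neg, neg_inj, mul_sum]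
  have h2 : ∀ b ∈ range (d + 1), (X ^ K.card * (PowerSeries.C (N (K.card + b) : ℝ) * X ^ b) : PowerSeries ℝ) =
      PowerSeries.C (N (K.card + b) : ℝ) * X ^ (K.card + b) := by
    intro b _
    rw [pow_add]
    ring
  rw [sum_congr rfl h2]
  have h3 : ∑ x ∈ Icc 1 d, (PowerSeries.C (N x : ℝ) * X ^ x : PowerSeries ℝ) = ∑ x ∈ Icc 1 (K.card + d), PowerSeries.C (N x : ℝ) * X ^ x := by
    refine sum_subset (Icc_subset_Icc_right (by omega)) fun x hx hx' => ?_
    rw [mem_Icc] at hx hx'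
    rw [h1 x (by omega), Nat.cast_zero, map_zero, zero_mul]
  have h4 : ∑ b ∈ range (d + 1), (PowerSeries.C (N (K.card + b) : ℝ) * X ^ (K.card + b) : PowerSeries ℝ) =
      ∑ x ∈ Icc K.card (K.card + d), PowerSeries.C (N x : ℝ) * X ^ x := by
    refine sum_bij (fun b _ => K.card + b) ?_ ?_ ?_ ?_
    · intro b hb
      rw [mem_range] at hb
      rw [mem_Icc]
      omega
    · intro b _ b' _ h
      omega
    · intro x hx
      rw [mem_Icc] at hx
      exact ⟨x - K.card, mem_range.2 (by omega), by omega⟩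
    · intro b _
      rfl
  rw [h3, h4]
  symm
  refine sum_subset (Icc_subset_Icc_left hK) fun x hx hx' => ?_
  rw [mem_Icc] at hx hx'
  rw [h0 x (by omega), Nat.cast_zero, map_zero, zero_mul]

private theorem prod_phi (he : 2 ≤ P.e) (hed : P.e < P.d) {j : ℕ} (hj : j ≤ P.J) {C₁ : ℝ} {n : ℕ} {ms : Multiset Kd} (hG : Gd P j C₁ n ms)
    {I : Finset ℕ} (hI : I ⊆ range j) {F : Finset (Finset ℕ)} (hF : F ∈ Dj I) :
    ∏ x ∈ phi I F, bO P j ms x = X ^ I.card * ((∏ K ∈ F, -∑ b ∈ range (P.d + 1), PowerSeries.C (NN j ms K b) * X ^ b) *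
      ∏ i ∈ I \ F.biUnion id, PowerSeries.C (P.c i : ℝ)) := by
  obtain ⟨h1, h2, h3⟩ := mem_Dj.1 hF
  obtain ⟨C₀, hC₀, hN⟩ := npt_bd P he hed hj C₁
  have h4 : ∀ K ∈ F, bO P j ms (.inl K) = X ^ K.card * -∑ b ∈ range (P.d + 1), PowerSeries.C (NN j ms K b) * X ^ b := by
    intro K hK
    have h5 := hN n hG.one ms hG.cls hG.bd K ((h1 K hK).trans hI)
    have h6 : K ≠ ∅ := fun h => h2 (h ▸ hK)
    exact supp_eq (card_pos.2 (nonempty_iff_ne_empty.2 h6)) (fun x => npt ms x (range j \ K)) (fun x hx => (h5 x).1 (Or.inl hx))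
      fun x hx => (h5 x).1 (Or.inr (Or.inl hx))
  have h5 : I.card = ∑ K ∈ F, K.card + (I \ F.biUnion id).card := by
    have h6 := (phi_sp (j := j) hF).2
    unfold phi at h6
    rw [sum_disjSum, sum_disjSum, sum_empty, add_zero] at h6
    rw [← h6]
    congr 1
    rw [card_eq_sum_ones]
    exact sum_congr rfl fun i _ => card_singleton i
  unfold phi
  rw [prod_disjSum, prod_disjSum, prod_empty, mul_one, prod_congr rfl h4, prod_mul_distrib, h5, pow_add, prod_pow_eq_pow_sum]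
  have h6 : ∏ x ∈ I \ F.biUnion id, bO P j ms (.inr (.inl x)) = (∏ x ∈ I \ F.biUnion id, PowerSeries.C (P.c x : ℝ)) * X ^ (I \ F.biUnion id).card := by
    change ∏ x ∈ I \ F.biUnion id, (PowerSeries.C (P.c x : ℝ) * X) = _
    rw [prod_mul_distrib, prod_const]
  rw [h6]
  ring

private theorem main_id (he : 2 ≤ P.e) (hed : P.e < P.d) {j : ℕ} (hj : j ≤ P.J) {C₁ : ℝ} {n : ℕ} {ms : Multiset Kd} (hG : Gd P j C₁ n ms)
    {I : Finset ℕ} (hI : I ⊆ range j) :
    (∑ Y ∈ (obj P j).powerset.filter (fun Y => I ⊆ Y.biUnion (spo j)), if ∑ x ∈ Y, (spo j x).card = I.card then ∏ x ∈ Y, bO P j ms x else 0) * FB P j n ms =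
      X ^ I.card * Mser P.d P.c n (NN j ms) I := by
  classical
  have h1 : (∑ Y ∈ (obj P j).powerset.filter (fun Y => I ⊆ Y.biUnion (spo j)), if ∑ x ∈ Y, (spo j x).card = I.card then ∏ x ∈ Y, bO P j ms x else 0) =
      ∑ F ∈ Dj I, ∏ x ∈ phi I F, bO P j ms x := by
    rw [← sum_image (f := fun Y => ∏ x ∈ Y, bO P j ms x) (g := phi I) fun F _ F' _ h => phi_inj I h]
    symm
    have h2 : ∀ Y ∈ (Dj I).image (phi I), ∏ x ∈ Y, bO P j ms x = if ∑ x ∈ Y, (spo j x).card = I.card then ∏ x ∈ Y, bO P j ms x else 0 := by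
      intro Y hY
      obtain ⟨F, hF, rfl⟩ := mem_image.1 hY
      rw [if_pos (phi_sp hF).2]
    rw [sum_congr rfl h2]
    refine sum_subset ?_ ?_
    · intro Y hY
      obtain ⟨F, hF, rfl⟩ := mem_image.1 hY
      rw [mem_filter, mem_powerset]
      exact ⟨phi_mem P hI hF, (phi_sp hF).1⟩
    · intro Y hY hY'
      rw [mem_filter, mem_powerset] at hY
      by_cases hc : ∑ x ∈ Y, (spo j x).card = I.card
      · rw [if_pos hc]
        by_cases hno : ∀ k, (.inr (.inr k) : Ob) ∉ Y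
        · obtain ⟨F, hF, h3⟩ := exact_eq P hY.1 hY.2 hc hno
          exact absurd (mem_image.2 ⟨F, hF, h3⟩) hY'
        · push Not at hno
          obtain ⟨k, hk⟩ := hno
          exact prod_eq_zero hk rfl
      · rw [if_neg hc]
  rw [h1, sum_congr rfl fun F hF => prod_phi P he hed hj hG hI hF, ← mul_sum]
  unfold Mser FB
  ring

private theorem card_le {j : ℕ} {I : Finset ℕ} {Y : Finset Ob} (hI : I ⊆ Y.biUnion (spo j)) : I.card ≤ ∑ x ∈ Y, (spo j x).card :=
  (card_le_card hI).trans card_biUnion_le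

private theorem core (he : 2 ≤ P.e) (hed : P.e < P.d) {j : ℕ} (hj : j ≤ P.J) (C₁ : ℝ) :
    ∃ C : ℝ, 0 ≤ C ∧ ∀ n ms, Gd P j C₁ n ms → ∀ I ⊆ range j, ∃ W : PowerSeries ℝ, (∀ D, (vd D I P.c n ms : ℝ) = coeff D W) ∧
      Ty P.d n (I.card : ℤ) C W ∧ Ty P.d n (I.card + 1 : ℤ) C (W - X ^ I.card * Mser P.d P.c n (NN j ms) I) := by
  classical
  obtain ⟨CY, hCY, hY⟩ := prodY P he hed hj C₁
  obtain ⟨CF, hCF, hF⟩ := prodF P he hed hj C₁
  set q : ℝ := ((obj P j).powerset.card : ℝ) with hq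
  have hq0 : 0 ≤ q := Nat.cast_nonneg _
  have hCY0 : 0 ≤ CY := by linarith only [hCY]
  have hCF0 : 0 ≤ CF := by linarith only [hCF]
  have hqC : 0 ≤ q * CY := mul_nonneg hq0 hCY0
  refine ⟨(P.d + 1) * CF * (q * CY) + (P.d + 1) * CF * (q * CY + q * CY), by positivity, fun n ms hG I hI => ?_⟩
  set Z := (obj P j).powerset.filter (fun Y => I ⊆ Y.biUnion (spo j)) with hZ
  have hZc : (Z.card : ℝ) ≤ q := by
    rw [hq]
    exact_mod_cast card_filter_le _ _
  have hZp : ∀ Y ∈ Z, Y ∈ (obj P j).powerset := fun Y hY => (mem_filter.1 hY).1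
  have hZI : ∀ Y ∈ Z, (I.card : ℤ) ≤ ∑ x ∈ Y, ((spo j x).card : ℤ) := by
    intro Y hY
    have h1 := card_le (mem_filter.1 hY).2
    exact_mod_cast h1
  set S : PowerSeries ℝ := ∑ Y ∈ Z, ∏ x ∈ Y, gO P j ms x with hS
  set M : PowerSeries ℝ := ∑ Y ∈ Z, (if ∑ x ∈ Y, (spo j x).card = I.card then ∏ x ∈ Y, bO P j ms x else 0) with hM
  have hn := hG.one
  have tS : Ty P.d n (I.card : ℤ) (q * CY) S := by
    refine (ty_sum Z _ fun Y hYZ => ((hY Y (hZp Y hYZ) n ms hG).1.mono hn (hZI Y hYZ) le_rfl hCY0)).mono hn le_rfl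
      (mul_le_mul_of_nonneg_right hZc hCY0) (by positivity)
  have tR : Ty P.d n (I.card + 1 : ℤ) (q * CY) (S - M) := by
    rw [hS, hM, ← sum_sub_distrib]
    refine (ty_sum Z _ fun Y hYZ => ?_).mono hn le_rfl (mul_le_mul_of_nonneg_right hZc hCY0) (by positivity)
    obtain ⟨h1, h2⟩ := hY Y (hZp Y hYZ) n ms hG
    by_cases hc : ∑ x ∈ Y, (spo j x).card = I.card
    · rw [if_pos hc]
      refine h2.mono hn ?_ le_rfl hCY0
      have := hZI Y hYZ
      omega
    · rw [if_neg hc, sub_zero]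
      refine h1.mono hn ?_ le_rfl hCY0
      have h3 := card_le (mem_filter.1 hYZ).2
      have h4 : I.card + 1 ≤ ∑ x ∈ Y, (spo j x).card := by omega
      exact_mod_cast h4
  have tM : Ty P.d n (I.card : ℤ) (q * CY + q * CY) M := by
    have h1 := tS.add (tR.mono hn (s' := (I.card : ℤ)) (by omega) le_rfl hqC).neg
    rwa [← sub_eq_add_neg, sub_sub_cancel] at h1
  obtain ⟨tF, tG⟩ := hF n ms hG
  refine ⟨FO P j n ms * S, fun D => vd_id P he hed hj hG.cls hG.sum hI D, ?_, ?_⟩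
  · have h1 := tF.mul hn hCF0 hqC tS
    rw [zero_add] at h1
    refine h1.mono hn le_rfl ?_ (by positivity)
    have h2 : 0 ≤ (P.d + 1) * CF * (q * CY + q * CY) := by positivity
    linarith only [h2]
  · rw [← main_id P he hed hj hG hI]
    change Ty P.d n (I.card + 1 : ℤ) _ (FO P j n ms * S - M * FB P j n ms)
    have h1 := tF.mul hn hCF0 hqC tR
    have h2 := tG.mul hn hCF0 (add_nonneg hqC hqC) tM
    rw [zero_add] at h1
    rw [add_comm (1 : ℤ)] at h2
    have h3 := h1.add h2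
    have h4 : FO P j n ms * S - M * FB P j n ms = FO P j n ms * (S - M) + (FO P j n ms - FB P j n ms) * M := by ring
    rw [h4]
    exact h3

end aux

theorem vt (he : 2 ≤ P.e) (hed : P.e < P.d) {j : ℕ} (hj : j ≤ P.J) (C₁ : ℝ) :
    ∃ C : ℝ, 0 ≤ C ∧ ∀ n, 1 ≤ n → ∑ i ∈ range j, P.c i ≤ n → ∀ ms, Cls P j n ms →
      (npt ms P.e (range j) : ℝ) ≤ C₁ * (n : ℝ) ^ P.e → ∀ I ⊆ range j, ∀ D ≤ P.d, I.card ≤ D →
        |(vd D I P.c n ms : ℝ) - coeff (D - I.card) (Mser P.d P.c n (NN j ms) I)| ≤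
          C * (n : ℝ) ^ ((D : ℤ) - I.card - 1) := by
  obtain ⟨C, hC, h⟩ := core P he hed hj C₁
  refine ⟨C, hC, fun n hn hs ms hcls hb I hI D hD hID => ?_⟩
  obtain ⟨W, h1, h2, h3⟩ := h n ms ⟨hn, hs, hcls, hb⟩ I hI
  have h4 := h3 D hD
  rw [map_sub, ← h1, PowerSeries.coeff_X_pow_mul', if_pos hID] at h4
  rwa [sub_sub]

end Pool.Agent.GD.VT
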